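import Pool.Agent.H88.L.H281R3.HT.Defs

/-!
# Rational frames of the cohomology of a product
-/

open CategoryTheory AlgebraicGeometry

universe u v w

namespace Pool.Agent.H281R3.HT

open Pool.Agent.H914 Pool.Agent.H914.VarClass Pool.Agent.H914.VarClass.Obj
  Pool.Agent.H914.WeilCohomology

variable {k : Type u} [Field k] {𝒱 : VarClass k} {ops : CycleOps 𝒱}
  {W : WeilCohomology.{u, v} ops} {X Y Z : 𝒱.Obj}

/-- The Weyl operator. -/
noncomputable abbrev wop (W : WeilCohomology.{u, v} ops) (Y : 𝒱.Obj) (D : Y.Cycles)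
    (f : Module.End W.K (W.H Y)) : Module.End W.K (W.H Y) :=
  wey (LinearMap.mulLeft W.K (W.cl Y D)) f

/-- The data of a frame. -/
structure FrmData (W : WeilCohomology.{u, v} ops) {ι : Type w} (P : ι → Polarized 𝒱)
    (Y : 𝒱.Obj) where
  /-- the lowering operator -/
  f : Module.End W.K (W.H Y)
  /-- indices of the rational part -/
  I0 : Type
  /-- indices of the remaining part -/
  I1 : Type
  fin0 : Fintype I0
  fin1 : Fintype I1
  /-- rational classes -/
  e : I0 → W.H Y
  /-- their codimensions -/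
  a : I0 → ℕ
  /-- their norms -/
  d : I0 → ℚ
  /-- multipliers -/
  n : I1 → W.H Y
  /-- their duals -/
  m : I1 → W.H Y
  /-- codimensions -/
  c : I1 → ℕ
  /-- indices of the members of the family -/
  j : I1 → ι
  /-- coordinates -/
  g : ∀ β, Y ⟶ (P (j β)).X
  /-- norms -/
  r : I1 → ℚ

attribute [instance] FrmData.fin0 FrmData.fin1

/-- The properties of a frame. -/
structure Frm (W : WeilCohomology.{u, v} ops) {ι : Type w} (P : ι → Polarized 𝒱)
    (Y : 𝒱.Obj) (D : Y.Cycles) (F : FrmData W P Y) : Prop where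
  hD : Y.IsCyc 1 D
  sl2 : Sl2 (wt (W.isInternal Y) Y.dim) (LinearMap.mulLeft W.K (W.cl Y D)) F.f
  e_mem : ∀ α, F.e α ∈ algClasses W Y (F.a α)
  we_mem : ∀ α, ∃ i, wop W Y D F.f (F.e α) ∈ algClasses W Y i
  d_pos : ∀ α, 0 < F.d α
  ee : ∀ α, W.tr Y (F.e α * wop W Y D F.f (F.e α)) = (((-1) ^ F.a α * F.d α : ℚ) : W.K)
  ee0 : ∀ α α', α ≠ α' → W.tr Y (F.e α * wop W Y D F.f (F.e α')) = 0
  n_mem : ∀ β, F.n β ∈ algClasses W Y (F.c β)
  m_mem : ∀ β, ∃ i, F.m β ∈ algClasses W Y i
  w_n : ∀ β, ∀ t ∈ transcendental W (P (F.j β)).X,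
    wop W Y D F.f (F.n β * W.map (F.g β) t) = F.m β * W.map (F.g β) t
  r_pos : ∀ β, 0 < F.r β
  nn : ∀ β, ∀ t ∈ transcendental W (P (F.j β)).X, ∀ t' ∈ transcendental W (P (F.j β)).X,
    W.tr Y (F.n β * W.map (F.g β) t * wop W Y D F.f (F.n β * W.map (F.g β) t')) =
      (((-1) ^ F.c β * F.r β : ℚ) : W.K) * W.tr _ (t * t')
  nn0 : ∀ β β', β ≠ β' → ∀ t ∈ transcendental W (P (F.j β)).X,
    ∀ t' ∈ transcendental W (P (F.j β')).X,
    W.tr Y (F.n β * W.map (F.g β) t * wop W Y D F.f (F.n β' * W.map (F.g β') t')) = 0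
  en0 : ∀ α β, ∀ t ∈ transcendental W (P (F.j β)).X,
    W.tr Y (F.e α * wop W Y D F.f (F.n β * W.map (F.g β) t)) = 0
  ne0 : ∀ α β, ∀ t ∈ transcendental W (P (F.j β)).X,
    W.tr Y (F.n β * W.map (F.g β) t * wop W Y D F.f (F.e α)) = 0
  span : ∀ y : W.H Y, y ∈ Submodule.span W.K (Set.range F.e ∪
    {y | ∃ β, ∃ t ∈ transcendental W (P (F.j β)).X, y = F.n β * W.map (F.g β) t})

/-- The properties needed from the members of the family. -/
structure Member (W : WeilCohomology.{u, v} ops) (X : 𝒱.Obj) : Prop where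
  mid : transcendental W X ≤ W.gr X X.dim
  split : ∀ y : W.H X, ∃ a ∈ Submodule.span W.K {c | ∃ j, c ∈ algClasses W X j},
    y - a ∈ transcendental W X

lemma Member.nondeg (h : Member W X) {t : W.H X} (ht : t ∈ transcendental W X)
    (h0 : ∀ t' ∈ transcendental W X, W.tr X (t * t') = 0) : t = 0 := by
  apply W.nondeg
  intro b
  obtain ⟨a, ha, hba⟩ := h.split b
  have key : ∀ a ∈ Submodule.span W.K {c | ∃ j, c ∈ algClasses W X j}, W.tr X (t * a) = 0 := by
    intro a ha
    induction ha using Submodule.span_induction with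
    | mem c hc =>
      obtain ⟨j, hc⟩ := hc
      exact mem_trans.1 ht j c hc
    | zero => rw [mul_zero, map_zero]
    | add x y _ _ hx hy => rw [mul_add, map_add, hx, hy, add_zero]
    | smul r x _ hx => rw [mul_smul_comm, map_smul, hx, smul_zero]
  have h1 := key a ha
  have h2 := h0 _ hba
  rw [mul_sub, map_sub, h1, sub_zero] at h2
  exact h2

lemma alg_mul {i j : ℕ} {a b : W.H X} (ha : a ∈ algClasses W X i) (hb : b ∈ algClasses W X j) :
    a * b ∈ algClasses W X (i + j) := by
  obtain ⟨z, hz, rfl⟩ := ha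
  obtain ⟨z', hz', rfl⟩ := hb
  exact ⟨ops.mul z z', ops.mul_mem hz hz', W.cl_mul z z'⟩

lemma alg_map (g : X ⟶ Y) {j : ℕ} {a : W.H Y} (ha : a ∈ algClasses W Y j) :
    W.map g a ∈ algClasses W X j := by
  obtain ⟨z, hz, rfl⟩ := ha
  exact ⟨ops.pull g z, ops.pull_mem g hz, W.cl_pull g z⟩

lemma alg_push (g : X ⟶ Y) {j i : ℕ} {a : W.H X} (ha : a ∈ algClasses W X j)
    (hij : j + Y.dim = i + X.dim) : W.push g a ∈ algClasses W Y i := by
  obtain ⟨z, hz, rfl⟩ := ha
  exact ⟨ops.push g z, ops.push_mem g hz hij, W.cl_push g z⟩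

/-- Algebraic classes are orthogonal to multiples of pull-backs of transcendental classes. -/
lemma tr_alg_trans (g : Y ⟶ X) {i : ℕ} {z : W.H Y} (hz : z ∈ algClasses W Y i) {t : W.H X}
    (hmid : transcendental W X ≤ W.gr X X.dim)
    (ht : t ∈ transcendental W X) : W.tr Y (z * W.map g t) = 0 := by
  by_cases h : ∃ i', i + X.dim = i' + Y.dim
  · obtain ⟨i', hi'⟩ := h
    rw [← W.tr_push]
    have h1 := mem_trans.1 ht i' _ (alg_push g hz hi')
    rw [bil_apply] at h1
    rw [W.even_comm (alg_gr (alg_push g hz hi')) t]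
    exact h1
  · apply W.tr_eq_zero (W.mul_mem (alg_gr hz) (W.map_mem g (hmid ht)))
    intro h0
    apply h
    exact ⟨i + X.dim - Y.dim, by omega⟩

namespace Frm

variable {ι : Type w} {P : ι → Polarized 𝒱} {D : Y.Cycles} {F : FrmData W P Y}
  (h : Frm W P Y D F) (hM : ∀ i, Member W (P i).X)

include h hM

/-- Algebraic classes are combinations of the rational classes of the frame. -/
lemma alg_span {i : ℕ} {z : W.H Y} (hz : z ∈ algClasses W Y i) :
    ∃ q : F.I0 → W.K, z = ∑ α, q α • F.e α := by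
  classical
  have h1 : ∀ y : W.H Y, ∃ (q : F.I0 → W.K) (t : ∀ β, W.H (P (F.j β)).X),
      (∀ β, t β ∈ transcendental W (P (F.j β)).X) ∧
      y = ∑ α, q α • F.e α + ∑ β, F.n β * W.map (F.g β) (t β) := by
    intro y
    have hy := h.span y
    induction hy using Submodule.span_induction with
    | mem y hy =>
      rcases hy with ⟨α, rfl⟩ | ⟨β, t, ht, rfl⟩
      · refine ⟨fun α' => if α' = α then 1 else 0, fun _ => 0, fun _ => Submodule.zero_mem _, ?_⟩
        simp
      · refine ⟨0, fun β' => if hb : β = β' then (hb ▸ t) else 0, ?_, ?_⟩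
        · intro β'
          dsimp only
          split_ifs with hb
          · subst hb; exact ht
          · exact Submodule.zero_mem _
        · rw [Finset.sum_eq_single β]
          · simp
          · intro β' _ hb
            dsimp only
            rw [dif_neg (Ne.symm hb), map_zero, mul_zero]
          · intro hb; exact absurd (Finset.mem_univ _) hb
    | zero => exact ⟨0, fun _ => 0, fun _ => Submodule.zero_mem _, by simp⟩
    | add x y _ _ hx hy =>
      obtain ⟨q, t, ht, rfl⟩ := hx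
      obtain ⟨q', t', ht', rfl⟩ := hy
      refine ⟨q + q', fun β => t β + t' β, fun β => Submodule.add_mem _ (ht β) (ht' β), ?_⟩
      simp only [Pi.add_apply, add_smul, Finset.sum_add_distrib, map_add, mul_add]
      abel
    | smul s x _ hx =>
      obtain ⟨q, t, ht, rfl⟩ := hx
      refine ⟨s • q, fun β => s • t β, fun β => Submodule.smul_mem _ _ (ht β), ?_⟩
      simp only [Pi.smul_apply, smul_assoc, map_smul, mul_smul_comm, smul_add, Finset.smul_sum]
  obtain ⟨q, t, ht, hz'⟩ := h1 z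
  have h2 : ∀ β, t β = 0 := by
    intro β
    apply (hM _).nondeg (ht β)
    intro t' ht'
    have h3 : W.tr Y (z * wop W Y D F.f (F.n β * W.map (F.g β) t')) = 0 := by
      obtain ⟨i', hi'⟩ := h.m_mem β
      rw [h.w_n β t' ht', ← mul_assoc]
      exact tr_alg_trans (F.g β) (alg_mul hz hi') (hM _).mid ht'
    rw [hz', add_mul, map_add, Finset.sum_mul, map_sum, Finset.sum_mul, map_sum,
      Finset.sum_eq_zero, zero_add, Finset.sum_eq_single β, h.nn β _ (ht β) t' ht'] at h3
    · rcases mul_eq_zero.1 h3 with h4 | h4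
      · exfalso
        have h5 : ((-1) ^ F.c β * F.r β : ℚ) = 0 := by exact_mod_cast h4
        rcases mul_eq_zero.1 h5 with h6 | h6
        · exact absurd h6 (pow_ne_zero _ (by norm_num))
        · exact (h.r_pos β).ne' h6
      · exact h4
    · intro β' _ hb
      exact h.nn0 β' β hb _ (ht β') t' ht'
    · intro hb; exact absurd (Finset.mem_univ _) hb
    · intro α _
      rw [smul_mul_assoc, map_smul, h.en0 α β t' ht', smul_zero]
  refine ⟨q, ?_⟩
  rw [hz']
  simp only [h2, map_zero, mul_zero, Finset.sum_const_zero, add_zero]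

/-- The coefficients of algebraic classes are rational, and only classes of the same codimension
occur. -/
lemma alg_rational {i : ℕ} {z : W.H Y} (hz : z ∈ algClasses W Y i) :
    ∃ q : F.I0 → ℚ, (∀ α, F.a α ≠ i → q α = 0) ∧ z = ∑ α, (q α : W.K) • F.e α := by
  classical
  obtain ⟨s, hs⟩ := h.alg_span hM hz
  have hne : ∀ α, (((-1) ^ F.a α * F.d α : ℚ) : W.K) ≠ 0 := by
    intro α
    have h1 : ((-1) ^ F.a α * F.d α : ℚ) ≠ 0 :=
      mul_ne_zero (pow_ne_zero _ (by norm_num)) (h.d_pos α).ne'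
    exact_mod_cast h1
  have h1 : ∀ (s : F.I0 → W.K) (α : F.I0),
      W.tr Y ((∑ α', s α' • F.e α') * wop W Y D F.f (F.e α)) =
        s α * (((-1) ^ F.a α * F.d α : ℚ) : W.K) := by
    intro s α
    rw [Finset.sum_mul, map_sum, Finset.sum_eq_single α]
    · rw [smul_mul_assoc, map_smul, h.ee α, smul_eq_mul]
    · intro α' _ hα
      rw [smul_mul_assoc, map_smul, h.ee0 α' α hα, smul_zero]
    · intro hb; exact absurd (Finset.mem_univ _) hb
  have h2 : ∀ α, ∃ q : ℚ, s α = q := by
    intro α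
    obtain ⟨i', hi'⟩ := h.we_mem α
    obtain ⟨x, hx⟩ := alg_rat hz hi'
    rw [bil_apply, hs, h1] at hx
    refine ⟨x / ((-1) ^ F.a α * F.d α), ?_⟩
    rw [Rat.cast_div, eq_div_iff (hne α)]
    exact hx
  choose q hq using h2
  have hz2 : z = ∑ α, (q α : W.K) • F.e α := by
    rw [hs]
    exact Finset.sum_congr rfl (fun α _ => by rw [hq])
  refine ⟨q, ?_, hz2⟩
  intro α hα
  have h3 : z = ∑ α', (if F.a α' = i then (q α' : W.K) else 0) • F.e α' := by
    have e1 := proj_same (W.isInternal Y) (alg_gr hz)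
    rw [← e1]
    conv_lhs => rw [hz2]
    rw [map_sum]
    apply Finset.sum_congr rfl
    intro α' _
    rw [map_smul]
    by_cases h4 : F.a α' = i
    · rw [if_pos h4, proj_same (W.isInternal Y) (h4 ▸ alg_gr (h.e_mem α'))]
    · rw [if_neg h4, proj_ne (W.isInternal Y) (alg_gr (h.e_mem α')) (by omega), smul_zero,
        zero_smul]
  have h4 := h1 (fun α => (q α : W.K)) α
  rw [← hz2, h3, h1, if_neg hα, zero_mul] at h4
  rcases mul_eq_zero.1 h4.symm with h5 | h5
  · exact_mod_cast h5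
  · exact absurd h5 (hne α)

/-- The form on algebraic classes. -/
lemma form_alg {i : ℕ} {z : W.H Y} (hz : z ∈ algClasses W Y i) (hz0 : z ≠ 0) :
    ∃ s : ℚ, 0 < s ∧ W.tr Y (z * wop W Y D F.f z) = (((-1) ^ i * s : ℚ) : W.K) := by
  classical
  obtain ⟨q, hq, rfl⟩ := h.alg_rational hM hz
  refine ⟨∑ α, q α ^ 2 * F.d α, ?_, ?_⟩
  · have h1 : ∃ α, q α ≠ 0 := by
      by_contra hcon
      push Not at hcon
      apply hz0
      apply Finset.sum_eq_zero
      intro α _
      rw [hcon α, Rat.cast_zero, zero_smul]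
    obtain ⟨α, hα⟩ := h1
    apply Finset.sum_pos'
    · intro α _
      exact mul_nonneg (sq_nonneg _) (h.d_pos α).le
    · exact ⟨α, Finset.mem_univ _, mul_pos (by positivity) (h.d_pos α)⟩
  · have h1 : ∀ α, W.tr Y ((∑ α', (q α' : W.K) • F.e α') * wop W Y D F.f (F.e α)) =
        (q α : W.K) * (((-1) ^ F.a α * F.d α : ℚ) : W.K) := by
      intro α
      rw [Finset.sum_mul, map_sum, Finset.sum_eq_single α]
      · rw [smul_mul_assoc, map_smul, h.ee α, smul_eq_mul]
      · intro α' _ hα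
        rw [smul_mul_assoc, map_smul, h.ee0 α' α hα, smul_zero]
      · intro hb; exact absurd (Finset.mem_univ _) hb
    conv_lhs => rw [map_sum, Finset.mul_sum, map_sum]
    rw [Finset.mul_sum, Rat.cast_sum]
    apply Finset.sum_congr rfl
    intro α _
    rw [map_smul, mul_smul_comm, map_smul, h1 α, smul_eq_mul]
    by_cases h2 : F.a α = i
    · rw [h2]; push_cast; ring
    · rw [hq α h2]; simp

/-- **The standard conjecture of Hodge type.** -/
theorem hodgeType : HodgeType W Y D := by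
  intro j hj z hz hprim hz0
  set L : Module.End W.K (W.H Y) := LinearMap.mulLeft W.K (W.cl Y D) with hLdef
  have hcg : W.cl Y z ∈ W.gr Y (2 * j) := W.cl_mem hz
  have hwt : wt (W.isInternal Y) Y.dim (W.cl Y z) =
      -((Y.dim - 2 * j : ℕ) : W.K) • W.cl Y z := by
    rw [wt, scal_apply _ _ hcg, node]
    congr 1
    rw [Nat.cast_sub hj]
    push_cast
    ring
  have hfz : F.f (W.cl Y z) = 0 := by
    apply h.sl2.f_eq_zero hwt
    rw [← cl_divPow]
    exact hprim
  have h4 := wey_lowest h.sl2 hfz hwt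
  obtain ⟨s, hs, hs'⟩ := h.form_alg hM (z := W.cl Y z) ⟨z, hz, rfl⟩ hz0
  have h5 : W.tr Y (W.cl Y z * wop W Y D F.f (W.cl Y z)) =
      ((((Y.dim - 2 * j).factorial : ℚ)⁻¹ *
        Y.V.degCycle (ops.mul z (divPow ops D (Y.dim - 2 * j) z)) : ℚ) : W.K) := by
    rw [wop, h4, mul_smul_comm, map_smul, ← cl_divPow, ← W.cl_mul, W.tr_cl]
    · push_cast
      rw [smul_eq_mul]
    · have := ops.mul_mem hz (divPow_mem (ops := ops) h.hD (Y.dim - 2 * j) hz)
      rwa [show j + (j + (Y.dim - 2 * j)) = Y.dim by omega] at this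
  rw [hs'] at h5
  have h6 : ((-1) ^ j * s : ℚ) = (((Y.dim - 2 * j).factorial : ℚ)⁻¹ *
        Y.V.degCycle (ops.mul z (divPow ops D (Y.dim - 2 * j) z))) := by exact_mod_cast h5
  have h7 : (0 : ℚ) < (Y.dim - 2 * j).factorial := by positivity
  have h8 : (-1 : ℚ) ^ j * Y.V.degCycle (ops.mul z (divPow ops D (Y.dim - 2 * j) z)) =
      ((Y.dim - 2 * j).factorial : ℚ) * s := by
    have e1 : Y.V.degCycle (ops.mul z (divPow ops D (Y.dim - 2 * j) z)) =
        ((Y.dim - 2 * j).factorial : ℚ) * ((-1) ^ j * s) := by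
      rw [h6]; field_simp
    rw [e1]
    have e2 : (-1 : ℚ) ^ j * (-1) ^ j = 1 := by rw [← mul_pow]; simp
    linear_combination ((Y.dim - 2 * j).factorial : ℚ) * s * e2
  rw [h8]
  exact mul_pos h7 hs

/-- **The standard conjecture D.** -/
theorem homEqNum : HomEqNum W Y := by
  intro j hj z hz hnum
  classical
  obtain ⟨q, -, hzq⟩ := h.alg_rational hM (z := W.cl Y z) ⟨z, hz, rfl⟩
  have h1 : ∀ α, q α = 0 := by
    intro α
    obtain ⟨i, w, hw, hwe⟩ := h.we_mem α
    have h2 : W.tr Y (W.cl Y z * wop W Y D F.f (F.e α)) = 0 := by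
      rw [← hwe]
      by_cases hi : i = Y.dim - j
      · subst hi
        have h2 := ops.mul_mem hz hw
        rw [show j + (Y.dim - j) = Y.dim by omega] at h2
        rw [← W.cl_mul, W.tr_cl h2, hnum w hw, Rat.cast_zero]
      · rw [W.tr_eq_zero (W.mul_mem (W.cl_mem hz) (W.cl_mem hw)) (by omega)]
    rw [hzq, Finset.sum_mul, map_sum, Finset.sum_eq_single α] at h2
    · rw [smul_mul_assoc, map_smul, h.ee α, smul_eq_mul] at h2
      have h3 : (q α * ((-1) ^ F.a α * F.d α) : ℚ) = 0 := by exact_mod_cast h2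
      rcases mul_eq_zero.1 h3 with h4 | h4
      · exact h4
      · exfalso
        rcases mul_eq_zero.1 h4 with h6 | h6
        · exact absurd h6 (pow_ne_zero _ (by norm_num))
        · exact (h.d_pos α).ne' h6
    · intro α' _ hα
      rw [smul_mul_assoc, map_smul, h.ee0 α' α hα, smul_zero]
    · intro hb; exact absurd (Finset.mem_univ _) hb
  rw [hzq]
  apply Finset.sum_eq_zero
  intro α _
  rw [h1 α, Rat.cast_zero, zero_smul]

end Frm

end Pool.Agent.H281R3.HT
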